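import Pool.Agent.W2helper61.PF.Stm

/-!
# Project PF, piece SUB: substitution of numerals
-/

set_option autoImplicit false

namespace Pool.Agent.W2helper93.PF

open Pool.Agent.NPC Pool.Agent.H622R2 Pool.Agent.H620R2.Gauge Pool.Agent.W2helper61.RF
open Pool.Agent.W2helper61.PF

theorem tm_below {k k' : ℕ} {ρ : ℕ → Tm} (h : ∀ i < k, (ρ i).Below k') {t : Tm}
    (ht : t.Below k) : (t.sub ρ).Below k' := by
  induction t with
  | var i => exact h i ht
  | zero => trivial
  | succ t ih => exact ih ht
  | add t u ih1 ih2 => exact ⟨ih1 ht.1, ih2 ht.2⟩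
  | mul t u ih1 ih2 => exact ⟨ih1 ht.1, ih2 ht.2⟩
  | half t ih => exact ih ht
  | len t ih => exact ih ht
  | smash t u ih1 ih2 => exact ⟨ih1 ht.1, ih2 ht.2⟩

theorem up_below {k k' : ℕ} {ρ : ℕ → Tm} (h : ∀ i < k, (ρ i).Below k') :
    ∀ i < k + 1, (up ρ i).Below (k' + 1) := by
  intro i hi
  rcases i with _ | i
  · exact Nat.succ_pos k'
  · show ((ρ i).sub shift).Below (k' + 1)
    refine tm_below (k := k') (ρ := shift) (fun j hj => ?_) (h i (by omega))
    show j + 1 < k' + 1
    omega

theorem fm_below (φ : Fm) : ∀ {k k' : ℕ} {ρ : ℕ → Tm} (_ : ∀ i < k, (ρ i).Below k')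
    (_ : φ.Below k), (φ.sub ρ).Below k' := by
  induction φ with
  | eq t u => intro k k' ρ h hφ; exact ⟨tm_below h hφ.1, tm_below h hφ.2⟩
  | le t u => intro k k' ρ h hφ; exact ⟨tm_below h hφ.1, tm_below h hφ.2⟩
  | orc t => intro k k' ρ h hφ; exact tm_below h hφ
  | bot => intro k k' ρ _ _; trivial
  | imp φ ψ ih1 ih2 => intro k k' ρ h hφ; exact ⟨ih1 h hφ.1, ih2 h hφ.2⟩
  | all φ ih => intro k k' ρ h hφ; exact ih (up_below h) hφ

/-- closed terms do not change -/
theorem closed {ρ : ℕ → Tm} {t : Tm} (ht : t.Below 0) : t.sub ρ = t := by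
  induction t with
  | var i => exact absurd ht (Nat.not_lt_zero i)
  | zero => rfl
  | succ t ih => exact congrArg Tm.succ (ih ht)
  | add t u ih1 ih2 => exact congrArg₂ Tm.add (ih1 ht.1) (ih2 ht.2)
  | mul t u ih1 ih2 => exact congrArg₂ Tm.mul (ih1 ht.1) (ih2 ht.2)
  | half t ih => exact congrArg Tm.half (ih ht)
  | len t ih => exact congrArg Tm.len (ih ht)
  | smash t u ih1 ih2 => exact congrArg₂ Tm.smash (ih1 ht.1) (ih2 ht.2)

/-- the substitutions below quantifiers -/
def Inv (k N : ℕ) (ρ : ℕ → Tm) : Prop :=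
  ∀ i < k, ((ρ i).Below 0 ∧ (ρ i).enc.length ≤ N) ∨ ρ i = .var i

theorem inv_up {k N : ℕ} {ρ : ℕ → Tm} (h : Inv k N ρ) : Inv (k + 1) N (up ρ) := by
  intro i hi
  rcases i with _ | i
  · exact Or.inr rfl
  · rcases h i (by omega) with ⟨h1, h2⟩ | h1
    · have h3 : up ρ (i + 1) = ρ i := closed h1
      rw [h3]
      exact Or.inl ⟨h1, h2⟩
    · right
      show (ρ i).sub shift = _
      rw [h1]
      rfl

theorem tm_len {k N : ℕ} {ρ : ℕ → Tm} (h : Inv k N ρ) {t : Tm} (ht : t.Below k) :
    (t.sub ρ).enc.length ≤ t.enc.length * (N + 1) := by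
  induction t with
  | var i =>
    show (ρ i).enc.length ≤ _
    rcases h i ht with ⟨-, h2⟩ | h1
    · have : 1 ≤ (Tm.var i).enc.length := by simp [Tm.enc]
      nlinarith
    · rw [h1]
      nlinarith
  | zero => simp only [Tm.sub, Tm.enc, List.length_cons, List.length_nil]; omega
  | succ t ih =>
    have := ih ht
    simp only [Tm.sub, Tm.enc, List.length_cons] at this ⊢
    nlinarith
  | add t u ih1 ih2 =>
    have h1 := ih1 ht.1
    have h2 := ih2 ht.2
    simp only [Tm.sub, Tm.enc, List.length_cons, List.length_append] at h1 h2 ⊢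
    nlinarith
  | mul t u ih1 ih2 =>
    have h1 := ih1 ht.1
    have h2 := ih2 ht.2
    simp only [Tm.sub, Tm.enc, List.length_cons, List.length_append] at h1 h2 ⊢
    nlinarith
  | half t ih =>
    have := ih ht
    simp only [Tm.sub, Tm.enc, List.length_cons] at this ⊢
    nlinarith
  | len t ih =>
    have := ih ht
    simp only [Tm.sub, Tm.enc, List.length_cons] at this ⊢
    nlinarith
  | smash t u ih1 ih2 =>
    have h1 := ih1 ht.1
    have h2 := ih2 ht.2
    simp only [Tm.sub, Tm.enc, List.length_cons, List.length_append] at h1 h2 ⊢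
    nlinarith

theorem fm_len (φ : Fm) : ∀ {k N : ℕ} {ρ : ℕ → Tm} (_ : Inv k N ρ) (_ : φ.Below k),
    (φ.sub ρ).enc.length ≤ φ.enc.length * (N + 1) := by
  induction φ with
  | eq t u =>
    intro k N ρ h hφ
    have h1 := tm_len h hφ.1
    have h2 := tm_len h hφ.2
    simp only [Fm.sub, Fm.enc, List.length_cons, List.length_append]
    nlinarith
  | le t u =>
    intro k N ρ h hφ
    have h1 := tm_len h hφ.1
    have h2 := tm_len h hφ.2
    simp only [Fm.sub, Fm.enc, List.length_cons, List.length_append]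
    nlinarith
  | orc t =>
    intro k N ρ h hφ
    have h1 := tm_len h (t := t) hφ
    simp only [Fm.sub, Fm.enc, List.length_cons]
    nlinarith
  | bot =>
    intro k N ρ _ _
    simp only [Fm.sub, Fm.enc, List.length_cons, List.length_nil]
    omega
  | imp φ ψ ih1 ih2 =>
    intro k N ρ h hφ
    have h1 := ih1 h hφ.1
    have h2 := ih2 h hφ.2
    simp only [Fm.sub, Fm.enc, List.length_cons, List.length_append]
    nlinarith
  | all φ ih =>
    intro k N ρ h hφ
    have h1 := ih (inv_up h) hφ
    simp only [Fm.sub, Fm.enc, List.length_cons]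
    nlinarith

theorem len_pre (l : List Bool) : (l.flatMap Pool.Agent.W2helper61.RF.pre).length ≤ 15 * l.length := by
  induction l with
  | nil => simp
  | cons b l ih =>
    rw [List.flatMap_cons, List.length_append, List.length_cons]
    have : (Pool.Agent.W2helper61.RF.pre b).length ≤ 15 := by
      cases b <;> simp [Pool.Agent.W2helper61.RF.pre, Pool.Agent.W2helper61.RF.Tm.enc]
    omega

theorem len_num (n : ℕ) : (num n).enc.length ≤ 15 * n.size + 3 := by
  rw [enc_num, List.length_append]
  have h1 := len_pre n.bits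
  rw [← Nat.size_eq_bits_len]
  have h2 : (Tm.zero.enc).length = 3 := rfl
  omega

theorem SUB_ok : P_SUB := by
  intro μ hμ
  refine ⟨fun e x z => fm_below μ (k := 3) (fun i hi => ?_) hμ,
    Polynomial.C μ.enc.length * (Polynomial.C 15 * Polynomial.X + Polynomial.C 4),
    fun e x z => ?_⟩
  · rcases i with _ | _ | _ | i
    · exact below_num 0 e
    · exact below_num 0 x
    · exact below_num 0 z
    · omega
  · have hI : Inv 3 (15 * (e.size + x.size + z.size) + 3) (nums [e, x, z]) := by
      intro i hi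
      left
      rcases i with _ | _ | _ | i
      · exact ⟨below_num 0 e, (len_num e).trans (by omega)⟩
      · exact ⟨below_num 0 x, (len_num x).trans (by omega)⟩
      · exact ⟨below_num 0 z, (len_num z).trans (by omega)⟩
      · omega
    refine (fm_len μ hI hμ).trans (le_of_eq ?_)
    simp only [Polynomial.eval_mul, Polynomial.eval_add, Polynomial.eval_C, Polynomial.eval_X]

end Pool.Agent.W2helper93.PF
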